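import Pool.Agent.T9h12.M5.Pair

/-! Two sets: the edges which do not have two vertices in the first and one in the second set. -/

set_option autoImplicit false
set_option maxRecDepth 100000
set_option maxHeartbeats 4000000
open Finset

namespace Pool.Agent.T9h12.M5
open Pool.Agent.H449R2.Fl

section
variable {V : Type} [DecidableEq V]

/-- the function without the triples with two vertices in `A` and one in `C` -/
def mo (f : V → V → V → ℕ) (A C : Finset V) (x y z : V) : ℕ :=
  if pAA A C x y z then 0 else f x y z

variable {f : V → V → V → ℕ} (hf : Pat f) {A C : Finset V} (hd : Disjoint A C)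
include hf

theorem mo_le (A C : Finset V) (x y z : V) : mo f A C x y z ≤ f x y z := by
  unfold mo; split_ifs <;> omega

theorem mo_sy (A C : Finset V) : Sy (mo f A C) := by
  refine ⟨fun a b c => ?_, fun a b c => ?_, fun a b c => ?_⟩
  · exact (mo_le hf A C a b c).trans (hf.le1 a b c)
  · have h2 : pAA A C a b c ↔ pAA A C b a c := by unfold pAA; omega
    unfold mo; simp only [h2, hf.s12 a b c]
  · have h2 : pAA A C a b c ↔ pAA A C a c b := by unfold pAA; omega
    unfold mo; simp only [h2, hf.s23 a b c]

theorem mo_k4 (hK : ∀ a b c d, sg f a b c d ≠ 15) (A C : Finset V) (x y z w : V) :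
    k4 (mo f A C x y z) (mo f A C x y w) (mo f A C x z w) (mo f A C y z w) = false := by
  refine Bool.eq_false_iff.mpr fun h => ?_
  have h1 := Nat.eq_of_beq_eq_true h
  simp only [Nat.add_eq] at h1
  have l1 := mo_le hf A C x y z
  have l2 := mo_le hf A C x y w
  have l3 := mo_le hf A C x z w
  have l4 := mo_le hf A C y z w
  have m1 := hf.le1 x y z
  have m2 := hf.le1 x y w
  have m3 := hf.le1 x z w
  have m4 := hf.le1 y z w
  have g1 : f x y z = 1 := by omega
  have g2 : f x y w = 1 := by omega
  have g3 : f x z w = 1 := by omega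
  have g4 : f y z w = 1 := by omega
  refine hK x y z w ?_
  unfold sg
  rw [g1, g2, g3, g4]

include hd

theorem mo_caa {x z w : V} (hx : x ∈ C) (hz : z ∈ A) (hw : w ∈ A) : mo f A C x z w = 0 := by
  have h2 := iA_disj hd x
  have h3 := iA_disj hd z
  have h4 := iA_disj hd w
  rw [iA_one hx] at h2
  rw [iA_one hz] at h3
  rw [iA_one hw] at h4
  have h6 : pAA A C x z w := by
    unfold pAA
    rw [iA_one hz, iA_one hw, iA_one hx]; omega
  unfold mo
  rw [if_pos h6]

/-- the blow-up has no forbidden coloured triple -/
theorem mo_bd {PB : ℕ} (h0 : all3 (fun u => all3 fun v => all3 fun w => not (bd PB u v w 0)) = true)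
    (h1 : fb' PB = true) (s s' t : ℕ) (x y z : V × Fin t) :
    bd PB (bc A C s s' t x) (bc A C s s' t y) (bc A C s s' t z) (be (mo f A C) t x y z) =
      false := by
  have hs := mo_sy hf A C
  rcases (show mo f A C x.1 y.1 z.1 = 0 ∨ mo f A C x.1 y.1 z.1 = 1 by
    have := hs.le1 x.1 y.1 z.1; omega) with h | h
  · have g := all3_true (all3_true (all3_true h0 _ (bc_le A C s s' t x)) _
      (bc_le A C s s' t y)) _ (bc_le A C s s' t z)
    unfold be
    rw [h]
    rwa [Bool.not_eq_true'] at g
  · have g := all3_true (all3_true (all3_true h1 _ (bc_le A C s s' t x)) _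
      (bc_le A C s s' t y)) _ (bc_le A C s s' t z)
    unfold be
    rw [h]
    rw [Bool.or_eq_true] at g
    rcases g with g | g
    · rwa [Bool.not_eq_true'] at g
    · exfalso
      rcases or3 g with k | k | k <;> obtain ⟨k1, k2, k3⟩ := beq3 k
      · have := mo_caa hf hd (bc_two k1) (bc_zero k2) (bc_zero k3); omega
      · have := mo_caa hf hd (bc_two k2) (bc_zero k1) (bc_zero k3)
        rw [hs.s12] at this; omega
      · have := mo_caa hf hd (bc_two k3) (bc_zero k1) (bc_zero k2)
        rw [hs.s12, hs.s23] at this; omega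

end

end Pool.Agent.T9h12.M5
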