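import Pool.Agent.T9h12.M5.Low
import Pool.Agent.H449R2.Fl.Copies

/-! Complete pairs of sets: the modified function and the blow-up. -/

set_option autoImplicit false
set_option maxRecDepth 100000
set_option maxHeartbeats 4000000
open Finset

namespace Pool.Agent.T9h12.M5
open Pool.Agent.H449R2.Fl

section
variable {V : Type} [DecidableEq V]

def iA (A : Finset V) (x : V) : ℕ := if x ∈ A then 1 else 0

/-- one vertex in `A` and two in `C` -/
def pAC (A C : Finset V) (x y z : V) : Prop :=
  iA A x + iA A y + iA A z = 1 ∧ iA C x + iA C y + iA C z = 2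
/-- two vertices in `A` and one in `C` -/
def pAA (A C : Finset V) (x y z : V) : Prop :=
  iA A x + iA A y + iA A z = 2 ∧ iA C x + iA C y + iA C z = 1

instance (A C : Finset V) (x y z : V) : Decidable (pAC A C x y z) := by unfold pAC; infer_instance
instance (A C : Finset V) (x y z : V) : Decidable (pAA A C x y z) := by unfold pAA; infer_instance

/-- the modified function -/
def md (f : V → V → V → ℕ) (A C : Finset V) (x y z : V) : ℕ :=
  if pAC A C x y z then 1 else if pAA A C x y z then 0 else f x y z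

theorem iA_le (A : Finset V) (x : V) : iA A x ≤ 1 := by unfold iA; split_ifs <;> omega
theorem iA_one {A : Finset V} {x : V} (h : x ∈ A) : iA A x = 1 := if_pos h
theorem iA_mem {A : Finset V} {x : V} (h : iA A x = 1) : x ∈ A := by
  unfold iA at h
  by_contra hx
  rw [if_neg hx] at h
  exact absurd h (by decide)
theorem iA_disj {A C : Finset V} (hd : Disjoint A C) (x : V) : iA A x + iA C x ≤ 1 := by
  unfold iA
  by_cases h1 : x ∈ A
  · have h2 : x ∉ C := disjoint_left.mp hd h1
    rw [if_pos h1, if_neg h2]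
  · rw [if_neg h1]; split_ifs <;> omega

variable {f : V → V → V → ℕ} (hf : Pat f) {A C : Finset V} (hd : Disjoint A C)
include hf

theorem md_sy (A C : Finset V) : Sy (md f A C) := by
  refine ⟨fun a b c => ?_, fun a b c => ?_, fun a b c => ?_⟩
  · unfold md; have := hf.le1 a b c; split_ifs <;> omega
  · have h1 : pAC A C a b c ↔ pAC A C b a c := by unfold pAC; omega
    have h2 : pAA A C a b c ↔ pAA A C b a c := by unfold pAA; omega
    unfold md; simp only [h1, h2, hf.s12 a b c]
  · have h1 : pAC A C a b c ↔ pAC A C a c b := by unfold pAC; omega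
    have h2 : pAA A C a b c ↔ pAA A C a c b := by unfold pAA; omega
    unfold md; simp only [h1, h2, hf.s23 a b c]

include hd

theorem md_rep {x z : V} (h : md f A C x x z = 1) : x ∈ C ∧ z ∈ A := by
  unfold md at h
  by_cases h1 : pAC A C x x z
  · unfold pAC at h1
    have h2 := iA_disj hd x
    have h3 := iA_disj hd z
    have h4 := iA_le A z
    exact ⟨iA_mem (by omega), iA_mem (by omega)⟩
  · rw [if_neg h1] at h
    by_cases h2 : pAA A C x x z
    · rw [if_pos h2] at h; exact absurd h (by decide)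
    · rw [if_neg h2, hf.dg] at h; exact absurd h (by decide)

theorem md_caa {x z w : V} (hx : x ∈ C) (hz : z ∈ A) (hw : w ∈ A) : md f A C x z w = 0 := by
  have h2 := iA_disj hd x
  have h3 := iA_disj hd z
  have h4 := iA_disj hd w
  rw [iA_one hx] at h2
  rw [iA_one hz] at h3
  rw [iA_one hw] at h4
  have h5 : ¬ pAC A C x z w := by
    unfold pAC
    rw [iA_one hz, iA_one hw]; omega
  have h6 : pAA A C x z w := by
    unfold pAA
    rw [iA_one hz, iA_one hw, iA_one hx]; omega
  unfold md
  rw [if_neg h5, if_pos h6]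

theorem md_f (hc : ∀ a ∈ A, ∀ u ∈ C, ∀ v ∈ C, u ≠ v → f a u v = 1) {x y z : V} (hxy : x ≠ y)
    (hxz : x ≠ z) (hyz : y ≠ z) (h : md f A C x y z = 1) : f x y z = 1 := by
  unfold md at h
  by_cases h1 : pAC A C x y z
  · unfold pAC at h1
    have h2 := iA_disj hd x
    have h3 := iA_disj hd y
    have h4 := iA_disj hd z
    have l1 := iA_le A x
    have l2 := iA_le A y
    have l3 := iA_le A z
    rcases Nat.lt_or_ge 0 (iA A x) with k | k
    · exact hc x (iA_mem (by omega)) y (iA_mem (by omega)) z (iA_mem (by omega)) hyz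
    rcases Nat.lt_or_ge 0 (iA A y) with k' | k'
    · rw [hf.s12]
      exact hc y (iA_mem (by omega)) x (iA_mem (by omega)) z (iA_mem (by omega)) hxz
    · rw [hf.s23, hf.s12]
      exact hc z (iA_mem (by omega)) x (iA_mem (by omega)) y (iA_mem (by omega)) hxy
  · rw [if_neg h1] at h
    by_cases h2 : pAA A C x y z
    · rw [if_pos h2] at h; exact absurd h (by decide)
    · rwa [if_neg h2] at h

theorem md_k4 (hK : ∀ a b c d, sg f a b c d ≠ 15)
    (hc : ∀ a ∈ A, ∀ u ∈ C, ∀ v ∈ C, u ≠ v → f a u v = 1) (x y z w : V) :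
    k4 (md f A C x y z) (md f A C x y w) (md f A C x z w) (md f A C y z w) = false := by
  refine Bool.eq_false_iff.mpr fun h => ?_
  have hs := md_sy hf A C
  have h1 := Nat.eq_of_beq_eq_true h
  simp only [Nat.add_eq] at h1
  have l1 := hs.le1 x y z
  have l2 := hs.le1 x y w
  have l3 := hs.le1 x z w
  have l4 := hs.le1 y z w
  have e1 : md f A C x y z = 1 := by omega
  have e2 : md f A C x y w = 1 := by omega
  have e3 : md f A C x z w = 1 := by omega
  have e4 : md f A C y z w = 1 := by omega
  by_cases c1 : x = y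
  · subst c1
    have := md_caa hf hd (md_rep hf hd e1).1 (md_rep hf hd e1).2 (md_rep hf hd e2).2
    omega
  by_cases c2 : x = z
  · subst c2
    have k1 : md f A C x x y = 1 := by rw [← e1, hs.s23]
    have := md_caa hf hd (md_rep hf hd k1).1 (md_rep hf hd k1).2 (md_rep hf hd e3).2
    omega
  by_cases c3 : x = w
  · subst c3
    have k1 : md f A C x x y = 1 := by rw [← e2, hs.s23]
    have k2 : md f A C x x z = 1 := by rw [← e3, hs.s23]
    have := md_caa hf hd (md_rep hf hd k1).1 (md_rep hf hd k1).2 (md_rep hf hd k2).2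
    omega
  by_cases c4 : y = z
  · subst c4
    have k1 : md f A C y y x = 1 := by rw [← e1, hs.s23 y y x, hs.s12 y x y]
    have h5 := md_caa hf hd (md_rep hf hd k1).1 (md_rep hf hd k1).2 (md_rep hf hd e4).2
    rw [hs.s12] at h5
    omega
  by_cases c5 : y = w
  · subst c5
    have k1 : md f A C y y x = 1 := by rw [← e2, hs.s23 y y x, hs.s12 y x y]
    have k2 : md f A C y y z = 1 := by rw [← e4, hs.s23]
    have h5 := md_caa hf hd (md_rep hf hd k1).1 (md_rep hf hd k1).2 (md_rep hf hd k2).2
    rw [hs.s12] at h5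
    omega
  by_cases c6 : z = w
  · subst c6
    have k1 : md f A C z z x = 1 := by rw [← e3, hs.s23 z z x, hs.s12 z x z]
    have k2 : md f A C z z y = 1 := by rw [← e4, hs.s23 z z y, hs.s12 z y z]
    have h5 := md_caa hf hd (md_rep hf hd k1).1 (md_rep hf hd k1).2 (md_rep hf hd k2).2
    rw [hs.s12, hs.s23] at h5
    omega
  have g1 := md_f hf hd hc c1 c2 c4 e1
  have g2 := md_f hf hd hc c1 c3 c5 e2
  have g3 := md_f hf hd hc c2 c3 c6 e3
  have g4 := md_f hf hd hc c4 c5 c6 e4
  refine hK x y z w ?_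
  unfold sg
  rw [g1, g2, g3, g4]

theorem caa_one (hK : ∀ a b c d, sg f a b c d ≠ 15)
    (hc : ∀ a ∈ A, ∀ u ∈ C, ∀ v ∈ C, u ≠ v → f a u v = 1) {x y : V} (hx : x ∈ A) (hy : y ∈ A) :
    ∑ z ∈ C, f x y z ≤ 1 := by
  by_cases h0 : ∀ z ∈ C, f x y z = 0
  · rw [sum_eq_zero h0]; omega
  · push Not at h0
    obtain ⟨u, hu, hu0⟩ := h0
    rw [sum_eq_single_of_mem u hu]
    · exact hf.le1 _ _ _
    · intro v hv hvu
      by_contra hv0
      have l1 := hf.le1 x y u
      have l2 := hf.le1 x y v
      have e1 : f x y u = 1 := by omega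
      have e2 : f x y v = 1 := by omega
      refine hK x y u v ?_
      unfold sg
      rw [e1, e2, hc x hx u hu v hv (Ne.symm hvu), hc y hy u hu v hv (Ne.symm hvu)]

variable [Fintype V]

theorem pAA_split (x y z : V) : (if pAA A C x y z then f x y z else 0) ≤
    iA A x * iA A y * (iA C z * f x y z) + iA A x * iA A z * (iA C y * f x z y) +
      iA A y * iA A z * (iA C x * f y z x) := by
  by_cases h : pAA A C x y z
  · rw [if_pos h]
    unfold pAA at h
    have l1 := iA_le A x
    have l2 := iA_le A y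
    have l3 := iA_le A z
    have d1 := iA_disj hd x
    have d2 := iA_disj hd y
    have d3 := iA_disj hd z
    have e1 : f x z y = f x y z := (hf.s23 x y z).symm
    have e2 : f y z x = f x y z := by rw [hf.s23 y z x, hf.s12 y x z]
    rw [e1, e2]
    rcases Nat.lt_or_ge 0 (iA A x) with k | k
    · rcases Nat.lt_or_ge 0 (iA A y) with k' | k'
      · have a1 : iA A x = 1 := by omega
        have a2 : iA A y = 1 := by omega
        have a3 : iA C z = 1 := by omega
        rw [a1, a2, a3, one_mul, one_mul, one_mul, add_assoc]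
        exact Nat.le_add_right _ _
      · have a1 : iA A x = 1 := by omega
        have a2 : iA A z = 1 := by omega
        have a3 : iA C y = 1 := by omega
        rw [a1, a2, a3, one_mul, one_mul, one_mul]
        omega
    · have a1 : iA A y = 1 := by omega
      have a2 : iA A z = 1 := by omega
      have a3 : iA C x = 1 := by omega
      rw [a1, a2, a3, one_mul, one_mul, one_mul]
      exact Nat.le_add_left _ _
  · rw [if_neg h]; exact Nat.zero_le _

theorem caa_sum (hK : ∀ a b c d, sg f a b c d ≠ 15)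
    (hc : ∀ a ∈ A, ∀ u ∈ C, ∀ v ∈ C, u ≠ v → f a u v = 1) :
    ∑ x, ∑ y, ∑ z, iA A x * iA A y * (iA C z * f x y z) ≤ A.card ^ 2 := by
  have h1 : ∀ x y, ∑ z, iA A x * iA A y * (iA C z * f x y z) ≤ iA A x * iA A y := by
    intro x y
    rw [← mul_sum]
    by_cases hx : x ∈ A
    · by_cases hy : y ∈ A
      · have h2 : ∑ z, iA C z * f x y z = ∑ z ∈ C, f x y z := by
          rw [← sum_filter_add_sum_filter_not univ (fun z => z ∈ C) (fun z => iA C z * f x y z)]
          rw [sum_eq_zero (s := univ.filter fun z => ¬ z ∈ C)]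
          · rw [add_zero, filter_mem_eq_inter, univ_inter]
            exact sum_congr rfl fun z hz => by rw [iA_one hz, one_mul]
          · intro z hz
            rw [mem_filter] at hz
            unfold iA
            rw [if_neg hz.2, zero_mul]
        rw [h2]
        exact (Nat.mul_le_mul_left _ (caa_one hf hd hK hc hx hy)).trans (by rw [mul_one])
      · have : iA A y = 0 := if_neg hy
        rw [this]; simp
    · have : iA A x = 0 := if_neg hx
      rw [this]; simp
  have h3 : ∑ x, iA A x = A.card := by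
    unfold iA
    rw [← card_filter, filter_mem_eq_inter, univ_inter]
  calc ∑ x, ∑ y, ∑ z, iA A x * iA A y * (iA C z * f x y z)
      ≤ ∑ x, ∑ y, iA A x * iA A y := sum_le_sum fun x _ => sum_le_sum fun y _ => h1 x y
    _ = A.card ^ 2 := by
      rw [sq, ← h3, sum_mul_sum]

theorem sum_md (hK : ∀ a b c d, sg f a b c d ≠ 15)
    (hc : ∀ a ∈ A, ∀ u ∈ C, ∀ v ∈ C, u ≠ v → f a u v = 1) :
    ∑ x, ∑ y, ∑ z, f x y z ≤ ∑ x, ∑ y, ∑ z, md f A C x y z + 3 * A.card ^ 2 := by
  have h0 := caa_sum hf hd hK hc
  have h1 : ∀ x y z, f x y z ≤ md f A C x y z + (iA A x * iA A y * (iA C z * f x y z) +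
      iA A x * iA A z * (iA C y * f x z y) + iA A y * iA A z * (iA C x * f y z x)) := by
    intro x y z
    have h2 := pAA_split hf hd x y z
    have h3 : f x y z ≤ md f A C x y z + (if pAA A C x y z then f x y z else 0) := by
      unfold md
      have := hf.le1 x y z
      split_ifs <;> omega
    omega
  have h4 : ∑ x, ∑ y, ∑ z, f x y z ≤ ∑ x, ∑ y, ∑ z, (md f A C x y z +
      (iA A x * iA A y * (iA C z * f x y z) +
      iA A x * iA A z * (iA C y * f x z y) + iA A y * iA A z * (iA C x * f y z x))) :=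
    sum_le_sum fun x _ => sum_le_sum fun y _ => sum_le_sum fun z _ => h1 x y z
  have s1 : ∑ x, ∑ y, ∑ z, iA A x * iA A z * (iA C y * f x z y) =
      ∑ x, ∑ y, ∑ z, iA A x * iA A y * (iA C z * f x y z) :=
    sum_congr rfl fun x _ => sum_comm
  have s2 : ∑ x, ∑ y, ∑ z, iA A y * iA A z * (iA C x * f y z x) =
      ∑ x, ∑ y, ∑ z, iA A x * iA A y * (iA C z * f x y z) := by
    rw [sum_comm]
    exact sum_congr rfl fun y _ => sum_comm
  simp only [sum_add_distrib] at h4
  rw [s1, s2] at h4
  omega

end

/-! The blow-up. -/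

section
variable {V : Type} [DecidableEq V]

def be (e : V → V → V → ℕ) (t : ℕ) (x y z : V × Fin t) : ℕ := e x.1 y.1 z.1

/-- the colours: the first `s` copies of the vertices of `A` and the first `s'` of those of `C` -/
def bc (A C : Finset V) (s s' t : ℕ) (x : V × Fin t) : ℕ :=
  if x.1 ∈ A ∧ x.2.val < s then 0 else if x.1 ∈ C ∧ x.2.val < s' then 2 else 1

theorem be_sy {e : V → V → V → ℕ} (he : Sy e) (t : ℕ) : Sy (be e t) :=
  ⟨fun _ _ _ => he.le1 _ _ _, fun _ _ _ => he.s12 _ _ _, fun _ _ _ => he.s23 _ _ _⟩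

theorem bc_le (A C : Finset V) (s s' t : ℕ) (x : V × Fin t) : bc A C s s' t x ≤ 2 := by
  unfold bc; split_ifs <;> omega

theorem bc_zero {A C : Finset V} {s s' t : ℕ} {x : V × Fin t} (h : bc A C s s' t x = 0) :
    x.1 ∈ A := by
  unfold bc at h
  by_contra hx
  rw [if_neg (fun hh => hx hh.1)] at h
  split_ifs at h

theorem bc_two {A C : Finset V} {s s' t : ℕ} {x : V × Fin t} (h : bc A C s s' t x = 2) :
    x.1 ∈ C := by
  unfold bc at h
  by_contra hx
  split_ifs at h with h1 h2
  · exact hx h2.1
  · exact absurd h (by decide)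

variable [Fintype V]

theorem be_sum (e : V → V → V → ℕ) (t : ℕ) :
    ∑ x, ∑ y, ∑ z, (be e t x y z : ℤ) = (t : ℤ) ^ 3 * ∑ x, ∑ y, ∑ z, (e x y z : ℤ) := by
  simp only [Fintype.sum_prod_type, be, sum_const, card_univ, Fintype.card_fin, nsmul_eq_mul,
    ← mul_sum]
  ring

theorem cnt (A : Finset V) (s t : ℕ) (hs : s ≤ t) :
    ∑ x : V × Fin t, (if x.1 ∈ A ∧ x.2.val < s then (1 : ℤ) else 0) = (A.card : ℤ) * s := by
  rw [Fintype.sum_prod_type]
  have h1 : ∀ x : V, ∑ i : Fin t, (if x ∈ A ∧ i.val < s then (1 : ℤ) else 0) =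
      if x ∈ A then (s : ℤ) else 0 := by
    intro x
    by_cases hx : x ∈ A
    · have h2 : ∀ i : Fin t, (if x ∈ A ∧ i.val < s then (1 : ℤ) else 0) =
          if i.val < s then 1 else 0 := by
        intro i
        by_cases hi : i.val < s
        · rw [if_pos ⟨hx, hi⟩, if_pos hi]
        · rw [if_neg (fun h => hi h.2), if_neg hi]
      rw [sum_congr rfl fun i _ => h2 i, if_pos hx, sum_boole, Fin.card_filter_val_lt,
        min_eq_right hs]
    · have h2 : ∀ i : Fin t, (if x ∈ A ∧ i.val < s then (1 : ℤ) else 0) = 0 := by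
        intro i
        rw [if_neg (fun h => hx h.1)]
      rw [sum_congr rfl fun i _ => h2 i, if_neg hx, sum_const_zero]
  rw [sum_congr rfl fun x _ => h1 x, sum_ite_mem, univ_inter, sum_const, nsmul_eq_mul]

/-- balance of the first colour -/
theorem bal0 {A C : Finset V} (P Q : ℕ) (hA : P * Fintype.card V ≤ Q * A.card) :
    ∑ x : V × Fin (Q * A.card * C.card), ((is0 Q 0 (bc A C (P * Fintype.card V * C.card)
      (P * Fintype.card V * A.card) (Q * A.card * C.card) x) : ℤ) - P) = 0 := by
  have hs : P * Fintype.card V * C.card ≤ Q * A.card * C.card := Nat.mul_le_mul_right _ hA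
  have h1 : ∀ x : V × Fin (Q * A.card * C.card), (is0 Q 0 (bc A C (P * Fintype.card V * C.card)
      (P * Fintype.card V * A.card) (Q * A.card * C.card) x) : ℤ) =
      Q * (if x.1 ∈ A ∧ x.2.val < P * Fintype.card V * C.card then (1 : ℤ) else 0) := by
    intro x
    unfold bc is0
    split_ifs <;> simp
  rw [sum_sub_distrib, sum_congr rfl fun x _ => h1 x, ← mul_sum, cnt A _ _ hs, sum_const,
    card_univ, Fintype.card_prod, Fintype.card_fin, nsmul_eq_mul]
  push_cast
  ring

/-- balance of the last colour -/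
theorem bal2 {A C : Finset V} (hd : Disjoint A C) (P Q : ℕ)
    (hC : P * Fintype.card V ≤ Q * C.card) :
    ∑ x : V × Fin (Q * A.card * C.card), ((is0 Q 2 (bc A C (P * Fintype.card V * C.card)
      (P * Fintype.card V * A.card) (Q * A.card * C.card) x) : ℤ) - P) = 0 := by
  have hs : P * Fintype.card V * A.card ≤ Q * A.card * C.card := by
    calc P * Fintype.card V * A.card ≤ Q * C.card * A.card := Nat.mul_le_mul_right _ hC
      _ = Q * A.card * C.card := by ring
  have h1 : ∀ x : V × Fin (Q * A.card * C.card), (is0 Q 2 (bc A C (P * Fintype.card V * C.card)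
      (P * Fintype.card V * A.card) (Q * A.card * C.card) x) : ℤ) =
      Q * (if x.1 ∈ C ∧ x.2.val < P * Fintype.card V * A.card then (1 : ℤ) else 0) := by
    intro x
    unfold bc is0
    by_cases hx : x.1 ∈ C
    · have hx' : x.1 ∉ A := fun h => disjoint_left.mp hd h hx
      rw [if_neg (fun h => hx' h.1)]
      split_ifs <;> simp
    · rw [if_neg (fun h : x.1 ∈ C ∧ _ => hx h.1), if_neg (fun h : x.1 ∈ C ∧ _ => hx h.1)]
      split_ifs <;> simp
  rw [sum_sub_distrib, sum_congr rfl fun x _ => h1 x, ← mul_sum, cnt C _ _ hs, sum_const,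
    card_univ, Fintype.card_prod, Fintype.card_fin, nsmul_eq_mul]
  push_cast
  ring

end

/-- the forbidden coloured triples in terms of the colours -/
def fb (PB : ℕ) : Bool :=
  all3 fun u => all3 fun v => all3 fun w =>
    or (not (bd PB u v w 0)) (or (and (Nat.beq u 0) (and (Nat.beq v 2) (Nat.beq w 2)))
      (or (and (Nat.beq u 2) (and (Nat.beq v 0) (Nat.beq w 2)))
        (and (Nat.beq u 2) (and (Nat.beq v 2) (Nat.beq w 0)))))
def fb' (PB : ℕ) : Bool :=
  all3 fun u => all3 fun v => all3 fun w =>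
    or (not (bd PB u v w 1)) (or (and (Nat.beq u 2) (and (Nat.beq v 0) (Nat.beq w 0)))
      (or (and (Nat.beq u 0) (and (Nat.beq v 2) (Nat.beq w 0)))
        (and (Nat.beq u 0) (and (Nat.beq v 0) (Nat.beq w 2)))))

theorem beq3 {u v w a b d : ℕ} (h : and (Nat.beq u a) (and (Nat.beq v b) (Nat.beq w d)) = true) :
    u = a ∧ v = b ∧ w = d := by
  rw [Bool.and_eq_true, Bool.and_eq_true] at h
  exact ⟨Nat.eq_of_beq_eq_true h.1, Nat.eq_of_beq_eq_true h.2.1, Nat.eq_of_beq_eq_true h.2.2⟩

theorem or3 {a b d : Bool} (h : or a (or b d) = true) : a = true ∨ b = true ∨ d = true := by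
  rw [Bool.or_eq_true, Bool.or_eq_true] at h
  exact h

section
variable {V : Type} [DecidableEq V] {f : V → V → V → ℕ} (hf : Pat f) {A C : Finset V}
  (hd : Disjoint A C)
include hf hd

theorem md_one {x y z : V} (hx : x ∈ A) (hy : y ∈ C) (hz : z ∈ C) : md f A C x y z = 1 := by
  have h2 := iA_disj hd x
  have h3 := iA_disj hd y
  have h4 := iA_disj hd z
  rw [iA_one hx] at h2
  rw [iA_one hy] at h3
  rw [iA_one hz] at h4
  have h5 : pAC A C x y z := by
    unfold pAC
    rw [iA_one hx, iA_one hy, iA_one hz]; omega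
  unfold md
  rw [if_pos h5]

/-- the blow-up has no forbidden coloured triple -/
theorem md_bd {PB : ℕ} (h0 : fb PB = true) (h1 : fb' PB = true) (s s' t : ℕ)
    (x y z : V × Fin t) :
    bd PB (bc A C s s' t x) (bc A C s s' t y) (bc A C s s' t z) (be (md f A C) t x y z) =
      false := by
  have hs := md_sy hf A C
  rcases (show md f A C x.1 y.1 z.1 = 0 ∨ md f A C x.1 y.1 z.1 = 1 by
    have := hs.le1 x.1 y.1 z.1; omega) with h | h
  · have g := all3_true (all3_true (all3_true h0 _ (bc_le A C s s' t x)) _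
      (bc_le A C s s' t y)) _ (bc_le A C s s' t z)
    unfold be
    rw [h]
    rw [Bool.or_eq_true] at g
    rcases g with g | g
    · rwa [Bool.not_eq_true'] at g
    · exfalso
      rcases or3 g with k | k | k <;> obtain ⟨k1, k2, k3⟩ := beq3 k
      · have := md_one hf hd (bc_zero k1) (bc_two k2) (bc_two k3); omega
      · have := md_one hf hd (bc_zero k2) (bc_two k1) (bc_two k3)
        rw [hs.s12] at this; omega
      · have := md_one hf hd (bc_zero k3) (bc_two k1) (bc_two k2)
        rw [hs.s12, hs.s23] at this; omega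
  · have g := all3_true (all3_true (all3_true h1 _ (bc_le A C s s' t x)) _
      (bc_le A C s s' t y)) _ (bc_le A C s s' t z)
    unfold be
    rw [h]
    rw [Bool.or_eq_true] at g
    rcases g with g | g
    · rwa [Bool.not_eq_true'] at g
    · exfalso
      rcases or3 g with k | k | k <;> obtain ⟨k1, k2, k3⟩ := beq3 k
      · have := md_caa hf hd (bc_two k1) (bc_zero k2) (bc_zero k3); omega
      · have := md_caa hf hd (bc_two k2) (bc_zero k1) (bc_zero k3)
        rw [hs.s12] at this; omega
      · have := md_caa hf hd (bc_two k3) (bc_zero k1) (bc_zero k2)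
        rw [hs.s12, hs.s23] at this; omega

end

end Pool.Agent.T9h12.M5
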