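import Pool.Agent.T9h12.C6.Sel
import Pool.Agent.H449R2.Fl.CertAux

/-! Three-coloured order-5 flag computations: the local functional and its values. -/

set_option autoImplicit false
set_option maxRecDepth 100000
set_option maxHeartbeats 4000000
set_option linter.unusedSimpArgs false
open Finset

namespace Pool.Agent.T9h12.M5
open Pool.Agent.H449R2.Fl
open Pool.Agent.T9h12.C6 (sel2_sym sel3_sym sel4_P s3)

def all2 (f : ℕ → Bool) : Bool := and (f 0) (f 1)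
def all3 (f : ℕ → Bool) : Bool := and (f 0) (and (f 1) (f 2))

theorem all2_true {f : ℕ → Bool} (h : all2 f = true) : ∀ b ≤ 1, f b = true := by
  intro b hb
  rw [all2, Bool.and_eq_true] at h
  interval_cases b
  exacts [h.1, h.2]

theorem all3_true {f : ℕ → Bool} (h : all3 f = true) : ∀ b ≤ 2, f b = true := by
  intro b hb
  rw [all3, Bool.and_eq_true, Bool.and_eq_true] at h
  interval_cases b
  exacts [h.1, h.2.1, h.2.2]

/-- code of a coloured triple -/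
def rr (ca cb cd t : ℕ) : ℕ :=
  Nat.add t (Nat.mul 2 (Nat.add ca (Nat.mul 3 (Nat.add cb (Nat.mul 3 cd)))))
/-- code of a coloured vertex over a triple -/
def ff (t1 t2 t3 cx : ℕ) : ℕ :=
  Nat.add t1 (Nat.mul 2 (Nat.add t2 (Nat.mul 2 (Nat.add t3 (Nat.mul 2 cx)))))
/-- code of a coloured pair over a vertex -/
def pp (t cx cy : ℕ) : ℕ := Nat.add t (Nat.mul 2 (Nat.add cx (Nat.mul 3 cy)))

theorem ff_lt {t1 t2 t3 cx : ℕ} (h1 : t1 ≤ 1) (h2 : t2 ≤ 1) (h3 : t3 ≤ 1) (h4 : cx ≤ 2) :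
    ff t1 t2 t3 cx < 24 := by
  simp only [ff, Nat.add_eq, Nat.mul_eq]; omega
theorem ff_div {t1 t2 t3 cx : ℕ} (h1 : t1 ≤ 1) (h2 : t2 ≤ 1) (h3 : t3 ≤ 1) :
    ff t1 t2 t3 cx / 8 = cx := by
  simp only [ff, Nat.add_eq, Nat.mul_eq]; omega
theorem rr_lt {a b d t : ℕ} (h1 : a ≤ 2) (h2 : b ≤ 2) (h3 : d ≤ 2) (h4 : t ≤ 1) :
    rr a b d t < 54 := by
  simp only [rr, Nat.add_eq, Nat.mul_eq]; omega
theorem rr_mod {a b d t : ℕ} (h4 : t ≤ 1) : rr a b d t % 2 = t := by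
  simp only [rr, Nat.add_eq, Nat.mul_eq]; omega
theorem pp_lt {t a b : ℕ} (h4 : t ≤ 1) (h1 : a ≤ 2) (h2 : b ≤ 2) : pp t a b < 18 := by
  simp only [pp, Nat.add_eq, Nat.mul_eq]; omega

/-- a symmetric 0/1-valued function of three vertices -/
structure Sy {V : Type} (e : V → V → V → ℕ) : Prop where
  le1 : ∀ a b c, e a b c ≤ 1
  s12 : ∀ a b c, e a b c = e b a c
  s23 : ∀ a b c, e a b c = e a c b

/-- symmetry of the tables -/
structure TSym (T TP : ℕ → ℕ → ℕ → ℕ) : Prop where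
  fg : ∀ r < 54, ∀ i < 24, ∀ j < 24, T r i j = T r j i
  s12 : ∀ a ≤ 2, ∀ b ≤ 2, ∀ d ≤ 2, ∀ t ≤ 1, ∀ x1 ≤ 1, ∀ x2 ≤ 1, ∀ x3 ≤ 1, ∀ cx ≤ 2,
    ∀ y1 ≤ 1, ∀ y2 ≤ 1, ∀ y3 ≤ 1, ∀ cy ≤ 2,
    T (rr b a d t) (ff x1 x3 x2 cx) (ff y1 y3 y2 cy) = T (rr a b d t) (ff x1 x2 x3 cx) (ff y1 y2 y3 cy)
  s23 : ∀ a ≤ 2, ∀ b ≤ 2, ∀ d ≤ 2, ∀ t ≤ 1, ∀ x1 ≤ 1, ∀ x2 ≤ 1, ∀ x3 ≤ 1, ∀ cx ≤ 2,
    ∀ y1 ≤ 1, ∀ y2 ≤ 1, ∀ y3 ≤ 1, ∀ cy ≤ 2,
    T (rr a d b t) (ff x2 x1 x3 cx) (ff y2 y1 y3 cy) = T (rr a b d t) (ff x1 x2 x3 cx) (ff y1 y2 y3 cy)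
  pij : ∀ a ≤ 2, ∀ i < 18, ∀ j < 18, TP a i j = TP a j i
  pxy : ∀ a ≤ 2, ∀ t ≤ 1, ∀ cx ≤ 2, ∀ cy ≤ 2, ∀ u ≤ 1, ∀ cz ≤ 2, ∀ cw ≤ 2,
    TP a (pp t cy cx) (pp u cz cw) = TP a (pp t cx cy) (pp u cz cw)

section
variable {V : Type} (e : V → V → V → ℕ) (c : V → ℕ) (T TP : ℕ → ℕ → ℕ → ℕ)

def phG (x y a b d : V) : ℕ :=
  T (rr (c a) (c b) (c d) (e a b d)) (ff (e a b x) (e a d x) (e b d x) (c x))
    (ff (e a b y) (e a d y) (e b d y) (c y))
def phP (a x y z w : V) : ℕ := TP (c a) (pp (e a x y) (c x) (c y)) (pp (e a z w) (c z) (c w))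
/-- the local functional -/
def phi5 (x0 x1 x2 x3 x4 : V) : ℕ := phG e c T x0 x1 x2 x3 x4 + phP e c TP x0 x1 x2 x3 x4

end

/-- the value at a coloured 3-graph on five vertices, first part -/
def vG (T : ℕ → ℕ → ℕ → ℕ) (b012 b013 b023 b123 b014 b024 b124 b034 b134 b234 c0 c1 c2 c3 c4 : ℕ) : ℕ :=
  (Nat.add (T (rr c2 c3 c4 b234) (ff b023 b024 b034 c0) (ff b123 b124 b134 c1))
    (Nat.add (T (rr c1 c3 c4 b134) (ff b013 b014 b034 c0) (ff b123 b124 b234 c2))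
    (Nat.add (T (rr c1 c2 c4 b124) (ff b012 b014 b024 c0) (ff b123 b134 b234 c3))
    (Nat.add (T (rr c1 c2 c3 b123) (ff b012 b013 b023 c0) (ff b124 b134 b234 c4))
    (Nat.add (T (rr c0 c3 c4 b034) (ff b013 b014 b134 c1) (ff b023 b024 b234 c2))
    (Nat.add (T (rr c0 c2 c4 b024) (ff b012 b014 b124 c1) (ff b023 b034 b234 c3))
    (Nat.add (T (rr c0 c2 c3 b023) (ff b012 b013 b123 c1) (ff b024 b034 b234 c4))
    (Nat.add (T (rr c0 c1 c4 b014) (ff b012 b024 b124 c2) (ff b013 b034 b134 c3))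
    (Nat.add (T (rr c0 c1 c3 b013) (ff b012 b023 b123 c2) (ff b014 b034 b134 c4))
    (T (rr c0 c1 c2 b012) (ff b013 b023 b123 c3) (ff b014 b024 b124 c4)))))))))))

/-- the value at a coloured 3-graph on five vertices, second part -/
def vP (TP : ℕ → ℕ → ℕ → ℕ) (b012 b013 b023 b123 b014 b024 b124 b034 b134 b234 c0 c1 c2 c3 c4 : ℕ) : ℕ :=
  (Nat.add (TP c0 (pp b012 c1 c2) (pp b034 c3 c4))
    (Nat.add (TP c0 (pp b013 c1 c3) (pp b024 c2 c4))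
    (Nat.add (TP c0 (pp b014 c1 c4) (pp b023 c2 c3))
    (Nat.add (TP c1 (pp b012 c0 c2) (pp b134 c3 c4))
    (Nat.add (TP c1 (pp b013 c0 c3) (pp b124 c2 c4))
    (Nat.add (TP c1 (pp b014 c0 c4) (pp b123 c2 c3))
    (Nat.add (TP c2 (pp b012 c0 c1) (pp b234 c3 c4))
    (Nat.add (TP c2 (pp b023 c0 c3) (pp b124 c1 c4))
    (Nat.add (TP c2 (pp b024 c0 c4) (pp b123 c1 c3))
    (Nat.add (TP c3 (pp b013 c0 c1) (pp b234 c2 c4))
    (Nat.add (TP c3 (pp b023 c0 c2) (pp b134 c1 c4))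
    (Nat.add (TP c3 (pp b034 c0 c4) (pp b123 c1 c2))
    (Nat.add (TP c4 (pp b014 c0 c1) (pp b234 c2 c3))
    (Nat.add (TP c4 (pp b024 c0 c2) (pp b134 c1 c3))
    (TP c4 (pp b034 c0 c3) (pp b124 c1 c2))))))))))))))))

/-- the value at a coloured 3-graph on five vertices -/
def val5 (T TP : ℕ → ℕ → ℕ → ℕ) (b012 b013 b023 b123 b014 b024 b124 b034 b134 b234 c0 c1 c2 c3 c4 : ℕ) : ℕ :=
  Nat.add (Nat.mul 12 (vG T b012 b013 b023 b123 b014 b024 b124 b034 b134 b234 c0 c1 c2 c3 c4)) (Nat.mul 8 (vP TP b012 b013 b023 b123 b014 b024 b124 b034 b134 b234 c0 c1 c2 c3 c4))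


section
variable {α : Type}

/-- the ten terms of a function of two plus three elements -/
def s10 (g : α → α → α → α → α → ℕ) (x y z u v : α) : ℕ :=
  (Nat.add (g x y z u v) (Nat.add (g x z y u v) (Nat.add (g x u y z v) (Nat.add (g x v y z u) (Nat.add (g y z x u v) (Nat.add (g y u x z v) (Nat.add (g y v x z u) (Nat.add (g z u x y v) (Nat.add (g z v x y u) (g u v x y z))))))))))

theorem sel5_G (g : α → α → α → α → α → ℕ) (h0 : ∀ x y a b d, g y x a b d = g x y a b d)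
    (h1 : ∀ x y a b d, g x y b a d = g x y a b d)
    (h2 : ∀ x y a b d, g x y a d b = g x y a b d) (x y z u v : α) :
    sel5 g x y z u v = 12 * s10 g x y z u v := by
  have h4 : ∀ p q a b d : α, sel3 (g p q) a b d = 6 * g p q a b d :=
    fun p q => sel3_sym (g p q) (h1 p q) (h2 p q)
  simp only [sel5, sel4, Nat.add_eq, h4, s10]
  rw [h0 x y, h0 x z, h0 x u, h0 x v, h0 y z, h0 y u, h0 y v, h0 z u, h0 z v, h0 u v]
  ring

/-- the fifteen terms of a function of one plus two plus two elements -/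
def s15 (g : α → α → α → α → α → ℕ) (x y z u v : α) : ℕ :=
  Nat.add (s3 (g x) y z u v) (Nat.add (s3 (g y) x z u v) (Nat.add (s3 (g z) x y u v)
    (Nat.add (s3 (g u) x y z v) (s3 (g v) x y z u))))

theorem sel5_P (g : α → α → α → α → α → ℕ) (h1 : ∀ a x y z w, g a y x z w = g a x y z w)
    (h2 : ∀ a x y z w, g a x y w z = g a x y z w) (h3 : ∀ a x y z w, g a z w x y = g a x y z w)
    (x y z u v : α) : sel5 g x y z u v = 8 * s15 g x y z u v := by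
  have h4 : ∀ a x y z w : α, sel4 (g a) x y z w = 8 * s3 (g a) x y z w :=
    fun a => sel4_P (g a) (h1 a) (h2 a) (h3 a)
  simp only [sel5, Nat.add_eq, h4, s15]
  ring

end


section
variable {V : Type} {e : V → V → V → ℕ} {c : V → ℕ} {T TP : ℕ → ℕ → ℕ → ℕ}

theorem Sy.r213 (he : Sy e) (a b d : V) : e b a d = e a b d := (he.s12 a b d).symm
theorem Sy.r132 (he : Sy e) (a b d : V) : e a d b = e a b d := (he.s23 a b d).symm
theorem Sy.r231 (he : Sy e) (a b d : V) : e b d a = e a b d := by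
  rw [← he.s23 b a d, he.r213]
theorem Sy.r312 (he : Sy e) (a b d : V) : e d a b = e a b d := by
  rw [he.s12 d a b, he.r132]
theorem Sy.r321 (he : Sy e) (a b d : V) : e d b a = e a b d := by
  rw [he.s12 d b a, he.r231]

theorem phG_xy (he : Sy e) (hc : ∀ x, c x ≤ 2) (S : TSym T TP) (x y a b d : V) :
    phG e c T y x a b d = phG e c T x y a b d :=
  S.fg _ (rr_lt (hc _) (hc _) (hc _) (he.le1 _ _ _)) _
    (ff_lt (he.le1 _ _ _) (he.le1 _ _ _) (he.le1 _ _ _) (hc _)) _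
    (ff_lt (he.le1 _ _ _) (he.le1 _ _ _) (he.le1 _ _ _) (hc _))

theorem phG_s12 (he : Sy e) (hc : ∀ x, c x ≤ 2) (S : TSym T TP) (x y a b d : V) :
    phG e c T x y b a d = phG e c T x y a b d := by
  unfold phG
  rw [he.r213 a b d, he.r213 a b x, he.r213 a b y]
  exact S.s12 _ (hc a) _ (hc b) _ (hc d) _ (he.le1 _ _ _) _ (he.le1 _ _ _) _ (he.le1 _ _ _) _
    (he.le1 _ _ _) _ (hc x) _ (he.le1 _ _ _) _ (he.le1 _ _ _) _ (he.le1 _ _ _) _ (hc y)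

theorem phG_s23 (he : Sy e) (hc : ∀ x, c x ≤ 2) (S : TSym T TP) (x y a b d : V) :
    phG e c T x y a d b = phG e c T x y a b d := by
  unfold phG
  rw [he.r132 a b d, he.r213 b d x, he.r213 b d y]
  exact S.s23 _ (hc a) _ (hc b) _ (hc d) _ (he.le1 _ _ _) _ (he.le1 _ _ _) _ (he.le1 _ _ _) _
    (he.le1 _ _ _) _ (hc x) _ (he.le1 _ _ _) _ (he.le1 _ _ _) _ (he.le1 _ _ _) _ (hc y)

theorem phP_xy (he : Sy e) (hc : ∀ x, c x ≤ 2) (S : TSym T TP) (a x y z w : V) :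
    phP e c TP a y x z w = phP e c TP a x y z w := by
  unfold phP
  rw [he.r132 a x y]
  exact S.pxy _ (hc a) _ (he.le1 _ _ _) _ (hc x) _ (hc y) _ (he.le1 _ _ _) _ (hc z) _ (hc w)

theorem phP_sw (he : Sy e) (hc : ∀ x, c x ≤ 2) (S : TSym T TP) (a x y z w : V) :
    phP e c TP a z w x y = phP e c TP a x y z w :=
  S.pij _ (hc _) _ (pp_lt (he.le1 _ _ _) (hc _) (hc _)) _ (pp_lt (he.le1 _ _ _) (hc _) (hc _))

theorem phP_zw (he : Sy e) (hc : ∀ x, c x ≤ 2) (S : TSym T TP) (a x y z w : V) :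
    phP e c TP a x y w z = phP e c TP a x y z w := by
  rw [phP_sw he hc S, phP_xy he hc S, phP_sw he hc S]

theorem sel2_add (f g : V → V → ℕ) (x y : V) :
    sel2 (fun x y => f x y + g x y) x y = sel2 f x y + sel2 g x y := by
  simp only [sel2, Nat.add_eq]; ring
theorem sel3_add (f g : V → V → V → ℕ) (x y z : V) :
    sel3 (fun x y z => f x y z + g x y z) x y z = sel3 f x y z + sel3 g x y z := by
  simp only [sel3, Nat.add_eq, sel2_add]; ring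
theorem sel4_add (f g : V → V → V → V → ℕ) (x y z u : V) :
    sel4 (fun x y z u => f x y z u + g x y z u) x y z u = sel4 f x y z u + sel4 g x y z u := by
  simp only [sel4, Nat.add_eq, sel3_add]; ring
theorem sel5_add (f g : V → V → V → V → V → ℕ) (x y z u v : V) :
    sel5 (fun x y z u v => f x y z u v + g x y z u v) x y z u v =
      sel5 f x y z u v + sel5 g x y z u v := by
  simp only [sel5, Nat.add_eq, sel4_add]; ring

theorem sel5_phi (he : Sy e) (hc : ∀ x, c x ≤ 2) (S : TSym T TP) (x0 x1 x2 x3 x4 : V) :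
    sel5 (phi5 e c T TP) x0 x1 x2 x3 x4 =
      val5 T TP (e x0 x1 x2) (e x0 x1 x3) (e x0 x2 x3) (e x1 x2 x3) (e x0 x1 x4) (e x0 x2 x4) (e x1 x2 x4) (e x0 x3 x4) (e x1 x3 x4) (e x2 x3 x4) (c x0) (c x1) (c x2) (c x3) (c x4) := by
  have h := sel5_add (phG e c T) (phP e c TP) x0 x1 x2 x3 x4
  have h' : sel5 (phi5 e c T TP) x0 x1 x2 x3 x4 =
      sel5 (phG e c T) x0 x1 x2 x3 x4 + sel5 (phP e c TP) x0 x1 x2 x3 x4 := h
  rw [h', sel5_G _ (phG_xy he hc S) (phG_s12 he hc S) (phG_s23 he hc S),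
    sel5_P _ (phP_xy he hc S) (phP_zw he hc S) (phP_sw he hc S)]
  have q021 : e x0 x2 x1 = e x0 x1 x2 := he.r132 x0 x1 x2
  have q102 : e x1 x0 x2 = e x0 x1 x2 := he.r213 x0 x1 x2
  have q120 : e x1 x2 x0 = e x0 x1 x2 := he.r231 x0 x1 x2
  have q201 : e x2 x0 x1 = e x0 x1 x2 := he.r312 x0 x1 x2
  have q210 : e x2 x1 x0 = e x0 x1 x2 := he.r321 x0 x1 x2
  have q031 : e x0 x3 x1 = e x0 x1 x3 := he.r132 x0 x1 x3
  have q103 : e x1 x0 x3 = e x0 x1 x3 := he.r213 x0 x1 x3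
  have q130 : e x1 x3 x0 = e x0 x1 x3 := he.r231 x0 x1 x3
  have q301 : e x3 x0 x1 = e x0 x1 x3 := he.r312 x0 x1 x3
  have q310 : e x3 x1 x0 = e x0 x1 x3 := he.r321 x0 x1 x3
  have q032 : e x0 x3 x2 = e x0 x2 x3 := he.r132 x0 x2 x3
  have q203 : e x2 x0 x3 = e x0 x2 x3 := he.r213 x0 x2 x3
  have q230 : e x2 x3 x0 = e x0 x2 x3 := he.r231 x0 x2 x3
  have q302 : e x3 x0 x2 = e x0 x2 x3 := he.r312 x0 x2 x3
  have q320 : e x3 x2 x0 = e x0 x2 x3 := he.r321 x0 x2 x3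
  have q132 : e x1 x3 x2 = e x1 x2 x3 := he.r132 x1 x2 x3
  have q213 : e x2 x1 x3 = e x1 x2 x3 := he.r213 x1 x2 x3
  have q231 : e x2 x3 x1 = e x1 x2 x3 := he.r231 x1 x2 x3
  have q312 : e x3 x1 x2 = e x1 x2 x3 := he.r312 x1 x2 x3
  have q321 : e x3 x2 x1 = e x1 x2 x3 := he.r321 x1 x2 x3
  have q041 : e x0 x4 x1 = e x0 x1 x4 := he.r132 x0 x1 x4
  have q104 : e x1 x0 x4 = e x0 x1 x4 := he.r213 x0 x1 x4
  have q140 : e x1 x4 x0 = e x0 x1 x4 := he.r231 x0 x1 x4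
  have q401 : e x4 x0 x1 = e x0 x1 x4 := he.r312 x0 x1 x4
  have q410 : e x4 x1 x0 = e x0 x1 x4 := he.r321 x0 x1 x4
  have q042 : e x0 x4 x2 = e x0 x2 x4 := he.r132 x0 x2 x4
  have q204 : e x2 x0 x4 = e x0 x2 x4 := he.r213 x0 x2 x4
  have q240 : e x2 x4 x0 = e x0 x2 x4 := he.r231 x0 x2 x4
  have q402 : e x4 x0 x2 = e x0 x2 x4 := he.r312 x0 x2 x4
  have q420 : e x4 x2 x0 = e x0 x2 x4 := he.r321 x0 x2 x4
  have q142 : e x1 x4 x2 = e x1 x2 x4 := he.r132 x1 x2 x4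
  have q214 : e x2 x1 x4 = e x1 x2 x4 := he.r213 x1 x2 x4
  have q241 : e x2 x4 x1 = e x1 x2 x4 := he.r231 x1 x2 x4
  have q412 : e x4 x1 x2 = e x1 x2 x4 := he.r312 x1 x2 x4
  have q421 : e x4 x2 x1 = e x1 x2 x4 := he.r321 x1 x2 x4
  have q043 : e x0 x4 x3 = e x0 x3 x4 := he.r132 x0 x3 x4
  have q304 : e x3 x0 x4 = e x0 x3 x4 := he.r213 x0 x3 x4
  have q340 : e x3 x4 x0 = e x0 x3 x4 := he.r231 x0 x3 x4
  have q403 : e x4 x0 x3 = e x0 x3 x4 := he.r312 x0 x3 x4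
  have q430 : e x4 x3 x0 = e x0 x3 x4 := he.r321 x0 x3 x4
  have q143 : e x1 x4 x3 = e x1 x3 x4 := he.r132 x1 x3 x4
  have q314 : e x3 x1 x4 = e x1 x3 x4 := he.r213 x1 x3 x4
  have q341 : e x3 x4 x1 = e x1 x3 x4 := he.r231 x1 x3 x4
  have q413 : e x4 x1 x3 = e x1 x3 x4 := he.r312 x1 x3 x4
  have q431 : e x4 x3 x1 = e x1 x3 x4 := he.r321 x1 x3 x4
  have q243 : e x2 x4 x3 = e x2 x3 x4 := he.r132 x2 x3 x4
  have q324 : e x3 x2 x4 = e x2 x3 x4 := he.r213 x2 x3 x4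
  have q342 : e x3 x4 x2 = e x2 x3 x4 := he.r231 x2 x3 x4
  have q423 : e x4 x2 x3 = e x2 x3 x4 := he.r312 x2 x3 x4
  have q432 : e x4 x3 x2 = e x2 x3 x4 := he.r321 x2 x3 x4
  simp only [s10, s15, s3, phG, phP, val5, vG, vP, Nat.add_eq, Nat.mul_eq,
    q021, q102, q120, q201, q210, q031, q103, q130, q301, q310, q032, q203, q230, q302, q320, q132, q213, q231, q312, q321, q041, q104, q140, q401, q410, q042, q204, q240, q402, q420, q142, q214, q241, q412, q421, q043, q304, q340, q403, q430, q143, q314, q341, q413, q431, q243, q324, q342, q423, q432]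
  ring

end

end Pool.Agent.T9h12.M5
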