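import Pool.Agent.T9h12.M5.Defs

/-! The lower bound for the total of the functional and the evaluation. -/

set_option autoImplicit false
set_option maxRecDepth 100000
set_option maxHeartbeats 4000000
open Finset

namespace Pool.Agent.T9h12.M5
open Pool.Agent.H449R2.Fl

/-- the tables are sums of squares and of multiples of the two size conditions -/
structure Cert (T TP : ℕ → ℕ → ℕ → ℕ) (zA zC : ℕ → ℤ) (oG oP W : ℤ) : Prop where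
  hG : ∀ r < 54, ∃ (K : ℕ) (f : ℕ → ℕ → ℤ) (HA HC : ℕ → ℤ), ∀ i < 24, ∀ j < 24,
    (T r i j : ℤ) = oG + W * ((r % 2 : ℕ) : ℤ) + ∑ k ∈ range K, f i k * f j k +
      (zA (i / 8) * HA j + zA (j / 8) * HA i) + (zC (i / 8) * HC j + zC (j / 8) * HC i)
  hP : ∀ a < 3, ∃ (K : ℕ) (f : ℕ → ℕ → ℤ), ∀ i < 18, ∀ j < 18,
    (TP a i j : ℤ) = oP + ∑ k ∈ range K, f i k * f j k

theorem sq_sum' {X : Type} [Fintype X] (K : ℕ) (g : X → ℕ → ℤ) :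
    0 ≤ ∑ x, ∑ y, ∑ k ∈ range K, g x k * g y k := by
  have h : ∑ x, ∑ y, ∑ k ∈ range K, g x k * g y k = ∑ k ∈ range K, (∑ x, g x k) ^ 2 := by
    calc ∑ x, ∑ y, ∑ k ∈ range K, g x k * g y k
        = ∑ x, ∑ k ∈ range K, ∑ y, g x k * g y k := sum_congr rfl fun x _ => sum_comm
      _ = ∑ k ∈ range K, ∑ x, ∑ y, g x k * g y k := sum_comm
      _ = ∑ k ∈ range K, (∑ x, g x k) ^ 2 := by
          refine sum_congr rfl fun k _ => ?_
          rw [sq, sum_mul_sum]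
  rw [h]
  exact sum_nonneg fun k _ => sq_nonneg _

section
variable {V : Type} [Fintype V] {e : V → V → V → ℕ} {c : V → ℕ}
  (he : Sy e) (hc : ∀ x, c x ≤ 2)
  {T TP : ℕ → ℕ → ℕ → ℕ} {zA zC : ℕ → ℤ} {oG oP W : ℤ} (C : Cert T TP zA zC oG oP W)

include he hc C

theorem low_G (hA : ∑ x, zA (c x) = 0) (hC : ∑ x, zC (c x) = 0) (a b d : V) :
    oG * (Fintype.card V : ℤ) ^ 2 + W * (e a b d : ℤ) * (Fintype.card V : ℤ) ^ 2 ≤
      ∑ x, ∑ y, (phG e c T x y a b d : ℤ) := by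
  obtain ⟨K, f, HA, HC, hG⟩ := C.hG _ (rr_lt (hc a) (hc b) (hc d) (he.le1 a b d))
  set i : V → ℕ := fun x => ff (e a b x) (e a d x) (e b d x) (c x) with hi
  have h1 : ∑ x, ∑ y, (phG e c T x y a b d : ℤ) =
      ∑ x, ∑ y, (oG + W * (e a b d : ℤ) + ∑ k ∈ range K, f (i x) k * f (i y) k +
        (zA (c x) * HA (i y) + zA (c y) * HA (i x)) +
        (zC (c x) * HC (i y) + zC (c y) * HC (i x))) := by
    refine sum_congr rfl fun x _ => sum_congr rfl fun y _ => ?_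
    simp only [phG]
    rw [hG _ (ff_lt (he.le1 _ _ _) (he.le1 _ _ _) (he.le1 _ _ _) (hc x)) _
      (ff_lt (he.le1 _ _ _) (he.le1 _ _ _) (he.le1 _ _ _) (hc y)),
      ff_div (he.le1 _ _ _) (he.le1 _ _ _) (he.le1 _ _ _),
      ff_div (he.le1 _ _ _) (he.le1 _ _ _) (he.le1 _ _ _), rr_mod (he.le1 _ _ _)]
  have h2 := sq_sum' K (fun x k => f (i x) k)
  have z1 : ∀ (z : ℕ → ℤ) (H : V → ℤ), ∑ x, z (c x) = 0 → ∑ x, ∑ y, z (c x) * H y = 0 := by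
    intro z H hz
    simp only [← mul_sum]
    rw [← sum_mul, hz, zero_mul]
  have z2 : ∀ (z : ℕ → ℤ) (H : V → ℤ), ∑ x, z (c x) = 0 → ∑ x, ∑ y, z (c y) * H x = 0 := by
    intro z H hz
    simp only [← sum_mul]
    simp only [hz, zero_mul, sum_const_zero]
  rw [h1]
  simp only [sum_add_distrib, z1 zA (fun y => HA (i y)) hA, z2 zA (fun x => HA (i x)) hA,
    z1 zC (fun y => HC (i y)) hC, z2 zC (fun x => HC (i x)) hC, sum_const, card_univ,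
    nsmul_eq_mul]
  nlinarith [h2]

theorem low_P (a : V) :
    oP * (Fintype.card V : ℤ) ^ 4 ≤ ∑ x, ∑ y, ∑ z, ∑ w, (phP e c TP a x y z w : ℤ) := by
  obtain ⟨K, f, hP⟩ := C.hP (c a) (by have := hc a; omega)
  set i : V → V → ℕ := fun x y => pp (e a x y) (c x) (c y) with hi
  have h1 : ∑ x, ∑ y, ∑ z, ∑ w, (phP e c TP a x y z w : ℤ) =
      ∑ x, ∑ y, ∑ z, ∑ w, (oP + ∑ k ∈ range K, f (i x y) k * f (i z w) k) := by
    refine sum_congr rfl fun x _ => sum_congr rfl fun y _ => sum_congr rfl fun z _ =>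
      sum_congr rfl fun w _ => ?_
    simp only [phP]
    rw [hP _ (pp_lt (he.le1 _ _ _) (hc _) (hc _)) _ (pp_lt (he.le1 _ _ _) (hc _) (hc _))]
  have h2 := sq_sum' K (fun (p : V × V) k => f (i p.1 p.2) k)
  simp only [Fintype.sum_prod_type] at h2
  rw [h1]
  simp only [sum_add_distrib, sum_const, card_univ, nsmul_eq_mul]
  linarith [h2, show oP * (Fintype.card V : ℤ) ^ 4 = (Fintype.card V : ℤ) * ((Fintype.card V : ℤ) *
    ((Fintype.card V : ℤ) * ((Fintype.card V : ℤ) * oP))) by ring]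

theorem low (hA : ∑ x, zA (c x) = 0) (hC : ∑ x, zC (c x) = 0) :
    (oG + oP) * (Fintype.card V : ℤ) ^ 5 + W * (Fintype.card V : ℤ) ^ 2 *
        ∑ a, ∑ b, ∑ d, (e a b d : ℤ) ≤
    ((∑ x, ∑ y, ∑ a, ∑ b, ∑ d, phi5 e c T TP x y a b d : ℕ) : ℤ) := by
  set n : ℤ := (Fintype.card V : ℤ) with hn
  have h1 : ∑ a : V, oP * n ^ 4 ≤
      ∑ a, ∑ x, ∑ y, ∑ z, ∑ w, (phP e c TP a x y z w : ℤ) :=
    sum_le_sum fun a _ => low_P he hc C a
  have h2 : ∑ a : V, ∑ b : V, ∑ d : V, (oG * n ^ 2 + W * (e a b d : ℤ) * n ^ 2) ≤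
      ∑ a, ∑ b, ∑ d, ∑ x, ∑ y, (phG e c T x y a b d : ℤ) :=
    sum_le_sum fun a _ => sum_le_sum fun b _ => sum_le_sum fun d _ =>
      low_G he hc C hA hC a b d
  have h3 : ∑ a, ∑ b, ∑ d, ∑ x, ∑ y, (phG e c T x y a b d : ℤ) =
      ∑ x, ∑ y, ∑ a, ∑ b, ∑ d, (phG e c T x y a b d : ℤ) := by
    have k1 : ∀ F : V → V → V → V → ℤ, ∑ a, ∑ b, ∑ d, ∑ x, F x a b d =
        ∑ x, ∑ a, ∑ b, ∑ d, F x a b d := by
      intro F
      have e1 : ∀ a b, ∑ d, ∑ x, F x a b d = ∑ x, ∑ d, F x a b d := fun _ _ => sum_comm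
      have e2 : ∀ a, ∑ b, ∑ d, ∑ x, F x a b d = ∑ x, ∑ b, ∑ d, F x a b d := fun a => by
        simp only [e1]; exact sum_comm
      simp only [e2]; exact sum_comm
    have e4 := k1 fun x a b d => ∑ y, (phG e c T x y a b d : ℤ)
    rw [e4]
    exact sum_congr rfl fun x _ => k1 fun y a b d => (phG e c T x y a b d : ℤ)
  have h4 : ((∑ x, ∑ y, ∑ a, ∑ b, ∑ d, phi5 e c T TP x y a b d : ℕ) : ℤ) =
      ∑ x, ∑ y, ∑ a, ∑ b, ∑ d, (phG e c T x y a b d : ℤ) +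
      ∑ a, ∑ x, ∑ y, ∑ z, ∑ w, (phP e c TP a x y z w : ℤ) := by
    simp only [phi5]
    push_cast
    simp only [sum_add_distrib]
  have h5 : ∑ a : V, ∑ b : V, ∑ d : V, (oG * n ^ 2 + W * (e a b d : ℤ) * n ^ 2) =
      oG * n ^ 5 + W * n ^ 2 * ∑ a, ∑ b, ∑ d, (e a b d : ℤ) := by
    simp only [sum_add_distrib, sum_const, card_univ, nsmul_eq_mul, mul_sum, ← hn]
    congr 1
    · ring
    · refine sum_congr rfl fun a _ => sum_congr rfl fun b _ => sum_congr rfl fun d _ => by ring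
  rw [h4, ← h3]
  rw [h5] at h2
  simp only [sum_const, card_univ, nsmul_eq_mul, ← hn] at h1
  nlinarith [h1, h2]

end

/-- The bound given by a certificate. -/
theorem cert_bound {V : Type} [Fintype V] {e : V → V → V → ℕ} {c : V → ℕ}
    (he : Sy e) (hc : ∀ x, c x ≤ 2)
    {T TP : ℕ → ℕ → ℕ → ℕ} {zA zC : ℕ → ℤ} {oG oP W : ℤ} (C : Cert T TP zA zC oG oP W)
    (S : TSym T TP) (B : ℕ)
    (hchk : ∀ x0 x1 x2 x3 x4 : V, val5 T TP (e x0 x1 x2) (e x0 x1 x3) (e x0 x2 x3) (e x1 x2 x3)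
      (e x0 x1 x4) (e x0 x2 x4) (e x1 x2 x4) (e x0 x3 x4) (e x1 x3 x4) (e x2 x3 x4)
      (c x0) (c x1) (c x2) (c x3) (c x4) ≤ B)
    (hA : ∑ x, zA (c x) = 0) (hC : ∑ x, zC (c x) = 0) :
    120 * W * ∑ a, ∑ b, ∑ x, (e a b x : ℤ) ≤
      ((B : ℤ) - 120 * (oG + oP)) * (Fintype.card V : ℤ) ^ 3 := by
  have h1 := low he hc C hA hC
  have h2 : ∑ x0 : V, ∑ x1 : V, ∑ x2 : V, ∑ x3 : V, ∑ x4 : V,
      sel5 (phi5 e c T TP) x0 x1 x2 x3 x4 ≤ B * Fintype.card V ^ 5 := by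
    have h3 : ∑ x0 : V, ∑ x1 : V, ∑ x2 : V, ∑ x3 : V, ∑ x4 : V,
        sel5 (phi5 e c T TP) x0 x1 x2 x3 x4 ≤
        ∑ x0 : V, ∑ x1 : V, ∑ x2 : V, ∑ x3 : V, ∑ x4 : V, B :=
      sum_le_sum fun x0 _ => sum_le_sum fun x1 _ => sum_le_sum fun x2 _ => sum_le_sum fun x3 _ =>
        sum_le_sum fun x4 _ => by
          rw [sel5_phi he hc S]
          exact hchk x0 x1 x2 x3 x4
    refine h3.trans (le_of_eq ?_)
    simp only [sum_const, card_univ, smul_eq_mul]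
    ring
  rw [tot5] at h2
  have h4 : (120 : ℤ) * ((∑ x0, ∑ x1, ∑ x2, ∑ x3, ∑ x4,
      phi5 e c T TP x0 x1 x2 x3 x4 : ℕ) : ℤ) ≤
      (B : ℤ) * (Fintype.card V : ℤ) ^ 5 := by exact_mod_cast h2
  rcases Nat.eq_zero_or_pos (Fintype.card V) with h0 | h0
  · have h5 : IsEmpty V := Fintype.card_eq_zero_iff.mp h0
    simp [h0]
  · have hn : (0 : ℤ) < (Fintype.card V : ℤ) ^ 2 := by positivity
    have h5 : (Fintype.card V : ℤ) ^ 2 * (120 * W * ∑ a, ∑ b, ∑ x, (e a b x : ℤ)) ≤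
        (Fintype.card V : ℤ) ^ 2 * (((B : ℤ) - 120 * (oG + oP)) *
          (Fintype.card V : ℤ) ^ 3) := by
      nlinarith [h1, h4]
    exact le_of_mul_le_mul_left h5 hn

/-- a forbidden coloured triple -/
def bd (PB ca cb cd t : ℕ) : Bool :=
  Nat.beq (Nat.land (Nat.shiftRight PB (rr ca cb cd t)) 1) 1
/-- four edges -/
def k4 (t1 t2 t3 t4 : ℕ) : Bool := Nat.beq (Nat.add t1 (Nat.add t2 (Nat.add t3 t4))) 4

/-- check of all structures with the given colours of the first three vertices -/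
def chk (PB : ℕ) (T TP : ℕ → ℕ → ℕ → ℕ) (B c0 c1 c2 : ℕ) : Bool :=
  all2 fun b012 => or (bd PB c0 c1 c2 b012) (all3 fun c3 => all2 fun b013 => all2 fun b023 =>
    all2 fun b123 => or (bd PB c0 c1 c3 b013) (or (bd PB c0 c2 c3 b023)
    (or (bd PB c1 c2 c3 b123) (or (k4 b012 b013 b023 b123) (all3 fun c4 => all2 fun b014 =>
    all2 fun b024 => all2 fun b124 => or (bd PB c0 c1 c4 b014) (or (bd PB c0 c2 c4 b024)
    (or (bd PB c1 c2 c4 b124) (or (k4 b012 b014 b024 b124) (all2 fun b034 => all2 fun b134 =>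
    all2 fun b234 => or (bd PB c0 c3 c4 b034) (or (bd PB c1 c3 c4 b134)
    (or (bd PB c2 c3 c4 b234) (or (k4 b013 b014 b034 b134) (or (k4 b023 b024 b034 b234)
    (or (k4 b123 b124 b134 b234) (Nat.ble (val5 T TP b012 b013 b023 b123 b014 b024 b124 b034
      b134 b234 c0 c1 c2 c3 c4) B)))))))))))))))

theorem or_false_imp {a b : Bool} (h : (a || b) = true) (ha : a = false) : b = true := by
  rw [ha] at h; exact h

theorem chk_true {PB B : ℕ} {T TP : ℕ → ℕ → ℕ → ℕ}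
    (h : ∀ c0 ≤ 2, ∀ c1 ≤ 2, ∀ c2 ≤ 2, chk PB T TP B c0 c1 c2 = true)
    {V : Type} {e : V → V → V → ℕ} {c : V → ℕ} (he : Sy e) (hc : ∀ x, c x ≤ 2)
    (hP : ∀ x y z, bd PB (c x) (c y) (c z) (e x y z) = false)
    (hK : ∀ x y z w, k4 (e x y z) (e x y w) (e x z w) (e y z w) = false)
    (x0 x1 x2 x3 x4 : V) : val5 T TP (e x0 x1 x2) (e x0 x1 x3) (e x0 x2 x3) (e x1 x2 x3)
      (e x0 x1 x4) (e x0 x2 x4) (e x1 x2 x4) (e x0 x3 x4) (e x1 x3 x4) (e x2 x3 x4)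
      (c x0) (c x1) (c x2) (c x3) (c x4) ≤ B := by
  have h1 := h _ (hc x0) _ (hc x1) _ (hc x2)
  have h2 := or_false_imp (all2_true h1 _ (he.le1 x0 x1 x2)) (hP _ _ _)
  have h3 := all2_true (all2_true (all2_true (all3_true h2 _ (hc x3)) _ (he.le1 x0 x1 x3)) _
    (he.le1 x0 x2 x3)) _ (he.le1 x1 x2 x3)
  have h4 := or_false_imp (or_false_imp (or_false_imp (or_false_imp h3 (hP _ _ _)) (hP _ _ _))
    (hP _ _ _)) (hK _ _ _ _)
  have h5 := all2_true (all2_true (all2_true (all3_true h4 _ (hc x4)) _ (he.le1 x0 x1 x4)) _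
    (he.le1 x0 x2 x4)) _ (he.le1 x1 x2 x4)
  have h6 := or_false_imp (or_false_imp (or_false_imp (or_false_imp h5 (hP _ _ _)) (hP _ _ _))
    (hP _ _ _)) (hK _ _ _ _)
  have h7 := all2_true (all2_true (all2_true h6 _ (he.le1 x0 x3 x4)) _ (he.le1 x1 x3 x4)) _
    (he.le1 x2 x3 x4)
  have h8 := or_false_imp (or_false_imp (or_false_imp (or_false_imp (or_false_imp
    (or_false_imp h7 (hP _ _ _)) (hP _ _ _)) (hP _ _ _)) (hK _ _ _ _)) (hK _ _ _ _))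
    (hK _ _ _ _)
  exact Nat.le_of_ble_eq_true h8

/-- the symmetries of the tables -/
theorem tsym_of {T TP : ℕ → ℕ → ℕ → ℕ} {zA zC : ℕ → ℤ} {oG oP W : ℤ}
    (C : Cert T TP zA zC oG oP W)
    (h12 : ∀ a ≤ 2, ∀ b ≤ 2, ∀ d ≤ 2, ∀ t ≤ 1, ∀ x1 ≤ 1, ∀ x2 ≤ 1, ∀ x3 ≤ 1, ∀ cx ≤ 2,
      ∀ y1 ≤ 1, ∀ y2 ≤ 1, ∀ y3 ≤ 1, ∀ cy ≤ 2,
      T (rr b a d t) (ff x1 x3 x2 cx) (ff y1 y3 y2 cy) =
        T (rr a b d t) (ff x1 x2 x3 cx) (ff y1 y2 y3 cy) ∧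
      T (rr a d b t) (ff x2 x1 x3 cx) (ff y2 y1 y3 cy) =
        T (rr a b d t) (ff x1 x2 x3 cx) (ff y1 y2 y3 cy))
    (hp : ∀ a ≤ 2, ∀ t ≤ 1, ∀ cx ≤ 2, ∀ cy ≤ 2, ∀ u ≤ 1, ∀ cz ≤ 2, ∀ cw ≤ 2,
      TP a (pp t cy cx) (pp u cz cw) = TP a (pp t cx cy) (pp u cz cw)) : TSym T TP where
  fg := by
    intro r hr i hi j hj
    obtain ⟨K, f, HA, HC, hG⟩ := C.hG r hr
    have h1 := hG i hi j hj
    have h2 := hG j hj i hi
    have h3 : ∑ k ∈ range K, f j k * f i k = ∑ k ∈ range K, f i k * f j k :=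
      sum_congr rfl fun k _ => mul_comm _ _
    rw [h3] at h2
    have h4 : (T r i j : ℤ) = (T r j i : ℤ) := by rw [h1, h2]; ring
    exact_mod_cast h4
  s12 := fun a ha b hb d hd t ht x1 h1 x2 h2 x3 h3 cx h4 y1 k1 y2 k2 y3 k3 cy k4 =>
    (h12 a ha b hb d hd t ht x1 h1 x2 h2 x3 h3 cx h4 y1 k1 y2 k2 y3 k3 cy k4).1
  s23 := fun a ha b hb d hd t ht x1 h1 x2 h2 x3 h3 cx h4 y1 k1 y2 k2 y3 k3 cy k4 =>
    (h12 a ha b hb d hd t ht x1 h1 x2 h2 x3 h3 cx h4 y1 k1 y2 k2 y3 k3 cy k4).2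
  pij := by
    intro a ha i hi j hj
    obtain ⟨K, f, hP⟩ := C.hP a (by omega)
    have h1 := hP i hi j hj
    have h2 := hP j hj i hi
    have h3 : ∑ k ∈ range K, f j k * f i k = ∑ k ∈ range K, f i k * f j k :=
      sum_congr rfl fun k _ => mul_comm _ _
    rw [h3] at h2
    have h4 : (TP a i j : ℤ) = (TP a j i : ℤ) := by rw [h1, h2]
    exact_mod_cast h4
  pxy := hp

/-! Checks of the tables. -/

theorem expand1 (K : ℕ) (u v : ℕ → ℕ) (O : ℤ) :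
    ∑ k ∈ range K, (((u k : ℤ) - O) * ((v k : ℤ) - O)) =
      ∑ k ∈ range K, ((u k : ℤ) * (v k : ℤ))
        - O * (∑ k ∈ range K, (u k : ℤ) + ∑ k ∈ range K, (v k : ℤ)) + K * O ^ 2 := by
  rw [mul_add, mul_sum, mul_sum, ← sum_add_distrib, ← sum_sub_distrib]
  have h : (K : ℤ) * O ^ 2 = ∑ _k ∈ range K, O ^ 2 := by simp
  rw [h, ← sum_add_distrib]
  exact sum_congr rfl fun k _ => by ring

/-- one if the colour is `k` -/
def is0 (Q k u : ℕ) : ℕ := Nat.mul Q (cond (Nat.beq u k) 1 0)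

def rs (lf : ℕ → ℕ → ℕ) (hA hC : ℕ → ℕ) (K O OH P Q i : ℕ) : ℕ :=
  Nat.add (Nat.mul O (nsum K (lf i))) (Nat.add (Nat.mul P (Nat.add (hA i) (hC i)))
    (Nat.mul OH (Nat.add (is0 Q 0 (Nat.div i 8)) (is0 Q 2 (Nat.div i 8)))))

/-- check of the row of the table of a type on three vertices -/
def ckG (T : ℕ → ℕ → ℕ → ℕ) (lf : ℕ → ℕ → ℕ → ℕ) (hA hC : ℕ → ℕ → ℕ)
    (K : ℕ → ℕ) (O OH P Q oG W r i : ℕ) : Bool :=
  nall 24 fun j => Nat.beq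
    (Nat.add (T r i j) (Nat.add (rs (lf r) (hA r) (hC r) (K r) O OH P Q i)
      (rs (lf r) (hA r) (hC r) (K r) O OH P Q j)))
    (Nat.add (Nat.add (nsum (K r) fun k => Nat.mul (lf r i k) (lf r j k))
      (Nat.add (Nat.add oG (Nat.mul W (Nat.mod r 2)))
        (Nat.add (Nat.mul (K r) (Nat.mul O O)) (Nat.mul 4 (Nat.mul P OH)))))
      (Nat.add (Nat.add (Nat.mul (is0 Q 0 (Nat.div i 8)) (hA r j))
        (Nat.mul (is0 Q 0 (Nat.div j 8)) (hA r i)))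
        (Nat.add (Nat.mul (is0 Q 2 (Nat.div i 8)) (hC r j))
        (Nat.mul (is0 Q 2 (Nat.div j 8)) (hC r i)))))

theorem ckG_true {T : ℕ → ℕ → ℕ → ℕ} {lf : ℕ → ℕ → ℕ → ℕ} {hA hC : ℕ → ℕ → ℕ}
    {K : ℕ → ℕ} {O OH P Q oG W r : ℕ}
    (h : nall 24 (ckG T lf hA hC K O OH P Q oG W r) = true) {i j : ℕ} (hi : i < 24) (hj : j < 24) :
    (T r i j : ℤ) = (oG : ℤ) + (W : ℤ) * ((r % 2 : ℕ) : ℤ) +
      ∑ k ∈ range (K r), (((lf r i k : ℤ) - O) * ((lf r j k : ℤ) - O)) +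
      (((is0 Q 0 (i / 8) : ℤ) - P) * ((hA r j : ℤ) - OH) +
        ((is0 Q 0 (j / 8) : ℤ) - P) * ((hA r i : ℤ) - OH)) +
      (((is0 Q 2 (i / 8) : ℤ) - P) * ((hC r j : ℤ) - OH) +
        ((is0 Q 2 (j / 8) : ℤ) - P) * ((hC r i : ℤ) - OH)) := by
  have h1 := nall_true (nall_true h i hi) j hj
  have h2 := Nat.eq_of_beq_eq_true h1
  simp only [rs, nsum_eq, Nat.add_eq, Nat.mul_eq] at h2
  have h3 := congrArg (fun n : ℕ => (n : ℤ)) h2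
  push_cast at h3
  rw [expand1]
  have e1 : Nat.div i 8 = i / 8 := rfl
  have e2 : Nat.div j 8 = j / 8 := rfl
  have e3 : ((Nat.mod r 2 : ℕ) : ℤ) = ((r % 2 : ℕ) : ℤ) := rfl
  rw [e1, e2, e3] at h3
  linarith

def ckP (TP : ℕ → ℕ → ℕ → ℕ) (mf : ℕ → ℕ → ℕ → ℕ) (K O oP a i : ℕ) : Bool :=
  nall 18 fun j => Nat.beq
    (Nat.add (TP a i j) (Nat.mul O (Nat.add (nsum K (mf a i)) (nsum K (mf a j)))))
    (Nat.add (nsum K fun k => Nat.mul (mf a i k) (mf a j k))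
      (Nat.add oP (Nat.mul K (Nat.mul O O))))

theorem ckP_true {TP : ℕ → ℕ → ℕ → ℕ} {mf : ℕ → ℕ → ℕ → ℕ} {K O oP a : ℕ}
    (h : nall 18 (ckP TP mf K O oP a) = true) {i j : ℕ} (hi : i < 18) (hj : j < 18) :
    (TP a i j : ℤ) = (oP : ℤ) + ∑ k ∈ range K, (((mf a i k : ℤ) - O) * ((mf a j k : ℤ) - O)) := by
  have h1 := nall_true (nall_true h i hi) j hj
  have h2 := Nat.eq_of_beq_eq_true h1
  simp only [nsum_eq, Nat.add_eq, Nat.mul_eq] at h2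
  have h3 := congrArg (fun n : ℕ => (n : ℤ)) h2
  push_cast at h3
  rw [expand1]
  linarith

/-- check of the symmetries of the first table -/
def ckS (T : ℕ → ℕ → ℕ → ℕ) (a b : ℕ) : Bool :=
  all3 fun d => all2 fun t => all2 fun x1 => all2 fun x2 => all2 fun x3 => all3 fun cx =>
    all2 fun y1 => all2 fun y2 => all2 fun y3 => all3 fun cy =>
    and (Nat.beq (T (rr b a d t) (ff x1 x3 x2 cx) (ff y1 y3 y2 cy))
      (T (rr a b d t) (ff x1 x2 x3 cx) (ff y1 y2 y3 cy)))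
    (Nat.beq (T (rr a d b t) (ff x2 x1 x3 cx) (ff y2 y1 y3 cy))
      (T (rr a b d t) (ff x1 x2 x3 cx) (ff y1 y2 y3 cy)))

theorem ckS_true {T : ℕ → ℕ → ℕ → ℕ} (h : ∀ a ≤ 2, ∀ b ≤ 2, ckS T a b = true)
    {a b d t x1 x2 x3 cx y1 y2 y3 cy : ℕ} (ha : a ≤ 2) (hb : b ≤ 2) (hd : d ≤ 2) (ht : t ≤ 1)
    (h1 : x1 ≤ 1) (h2 : x2 ≤ 1) (h3 : x3 ≤ 1) (h4 : cx ≤ 2)
    (k1 : y1 ≤ 1) (k2 : y2 ≤ 1) (k3 : y3 ≤ 1) (k4 : cy ≤ 2) :
    T (rr b a d t) (ff x1 x3 x2 cx) (ff y1 y3 y2 cy) =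
      T (rr a b d t) (ff x1 x2 x3 cx) (ff y1 y2 y3 cy) ∧
    T (rr a d b t) (ff x2 x1 x3 cx) (ff y2 y1 y3 cy) =
      T (rr a b d t) (ff x1 x2 x3 cx) (ff y1 y2 y3 cy) := by
  have g := all3_true (all2_true (all2_true (all2_true (all3_true (all2_true (all2_true (all2_true
    (all2_true (all3_true (h a ha b hb) d hd) t ht) x1 h1) x2 h2) x3 h3) cx h4) y1 k1) y2 k2)
    y3 k3) cy k4
  rw [Bool.and_eq_true] at g
  exact ⟨Nat.eq_of_beq_eq_true g.1, Nat.eq_of_beq_eq_true g.2⟩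

/-- check of the symmetry of the second table -/
def ckY (TP : ℕ → ℕ → ℕ → ℕ) : Bool :=
  all3 fun a => all2 fun t => all3 fun cx => all3 fun cy => all2 fun u => all3 fun cz =>
    all3 fun cw => Nat.beq (TP a (pp t cy cx) (pp u cz cw)) (TP a (pp t cx cy) (pp u cz cw))

theorem ckY_true {TP : ℕ → ℕ → ℕ → ℕ} (h : ckY TP = true)
    {a t cx cy u cz cw : ℕ} (ha : a ≤ 2) (ht : t ≤ 1) (h1 : cx ≤ 2) (h2 : cy ≤ 2) (hu : u ≤ 1)
    (h3 : cz ≤ 2) (h4 : cw ≤ 2) :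
    TP a (pp t cy cx) (pp u cz cw) = TP a (pp t cx cy) (pp u cz cw) :=
  Nat.eq_of_beq_eq_true (all3_true (all3_true (all2_true (all3_true (all3_true (all2_true
    (all3_true h a ha) t ht) cx h1) cy h2) u hu) cz h3) cw h4)

end Pool.Agent.T9h12.M5
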